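import Pool.Agent.Lib_helper6.GUS.Dom
import Pool.Agent.Lib_helper6.GUS.FewInit

open Cardinal Set Filter

universe u

namespace Pool.Agent.Results.MP_5b3e48_lc.FewInitialSegments

open Pool.Agent.GU48 Pool.Agent.GUS6

/-- Let `κ` be an uncountable cardinal and `W` an `ω₁`-saturated `κ`-complete filter on `κ`
containing the complements of the singletons.  If `2 ^ ℵ₀ ≤ κ`, or if there are at most `κ` sets
such that every member of `W` has an unbounded subset all of whose proper initial segments are
among them, then every condition forces that `j_W(κ)` is not a cardinal. -/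
theorem result (κ : Cardinal.{u}) (hκ : ℵ₀ < κ) (W : Filter κ.ord.ToType) [W.NeBot]
    (hcomplete : CardinalInterFilter W κ) (hnp : ∀ x : κ.ord.ToType, {x}ᶜ ∈ W)
    (hsat : OmegaOneSaturated W) (h : 2 ^ ℵ₀ ≤ κ ∨ FewInitialSegments κ W) :
    ForcesImageNotCardinal W Set.univ := by
  have hS : Setup κ.ord.ToType W κ :=
    { hκ := hκ
      hK := by simp
      hIio := fun b => Cardinal.mk_Iio_toType_ord_lt b
      hnp := hnp
      hsat := hsat }
  refine hS.forcesImageNotCardinal fun β _ => ?_
  rcases h with h | h
  · exact hS.smallCover h β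
  · exact smallCover_of_fewInitialSegments hS h β

end Pool.Agent.Results.MP_5b3e48_lc.FewInitialSegments
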