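import Pool.Agent.Lib_helper6.GUS.Dom

open Cardinal Set Filter

universe u

namespace Pool.Agent.Results.MP_5b3e48_lc.SlalomCovers

open Pool.Agent.GU48 Pool.Agent.GUS6

/-- Let `κ` be an uncountable cardinal, `W` an `ω₁`-saturated `κ`-complete filter on `κ`
containing the complements of the singletons and `ρ : κ → κ`.  If all regular uncountable
`β < κ`, or all `β ∈ P`, have a cover by at most `κ` slaloms of width `|ρ|`, then every
condition included in `P` forces that `j_W(κ)` is not a cardinal. -/
theorem result (κ : Cardinal.{u}) (hκ : ℵ₀ < κ) (W : Filter κ.ord.ToType) [W.NeBot]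
    (hcomplete : CardinalInterFilter W κ) (hnp : ∀ x : κ.ord.ToType, {x}ᶜ ∈ W)
    (hsat : OmegaOneSaturated W) (ρ : κ.ord.ToType → κ.ord.ToType) (P : Set κ.ord.ToType)
    (hP : (∀ β : κ.ord.ToType, RegularUncountable β → SlalomCover κ ρ β) ∨
      ∀ β ∈ P, SlalomCover κ ρ β) :
    ForcesImageNotCardinal W P := by
  have hS : Setup κ.ord.ToType W κ :=
    { hκ := hκ
      hK := by simp
      hIio := fun b => Cardinal.mk_Iio_toType_ord_lt b
      hnp := hnp
      hsat := hsat }
  exact forcesImageNotCardinal_of_slaloms hS ρ (Or.inr hP)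

end Pool.Agent.Results.MP_5b3e48_lc.SlalomCovers
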